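import Pool.Agent.K1H49.PL.Stm

/-!
Piece DEF of project PL of helper49: the roles of the induction are definable.
-/

namespace Pool.Agent.K1H13.PL

open Pool.Agent.K1H49.PL

universe u

variable {M : Type u}

lemma d2_pull (Y : Sys M) {A B C : Type} {R : (A → M) → (B → M) → Prop} (h : Y.D2 R)
    (f : A → C) (g : B → C) : Y.D {v : C → M | R (v ∘ f) (v ∘ g)} :=
  Y.pull (Sum.elim f g) h

lemma and_def (Y : Sys M) {C : Type} {P Q : (C → M) → Prop} (h1 : Y.D {v | P v})
    (h2 : Y.D {v | Q v}) : Y.D {v | P v ∧ Q v} := Y.inter h1 h2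

lemma allz_def (Y : Sys M) {X Z C : Type} (p : (C → M) → (Z → M) → Prop)
    (hp : ∀ f : Z → C, Y.D {v : C → M | p v (v ∘ f)}) :
    ∀ (n : ℕ) (h : An X Z n → C), Y.D {v : C → M | allz (X := X) (p v) n (v ∘ h)} := by
  intro n
  induction n with
  | zero => intro h; exact hp (fun i => h (Sum.inl i))
  | succ n ih =>
    intro h
    exact and_def Y (hp (fun i => h (Sum.inl i)))
      (and_def Y (ih (fun i => h (Sum.inr (Sum.inl i)))) (ih (fun i => h (Sum.inr (Sum.inr i)))))

lemma allx_def (Y : Sys M) {X Z C : Type} (p : (C → M) → (X → M) → Prop)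
    (hp : ∀ f : X → C, Y.D {v : C → M | p v (v ∘ f)}) :
    ∀ (n : ℕ) (h : An X Z n → C), Y.D {v : C → M | allx (Z := Z) (p v) n (v ∘ h)} := by
  intro n
  induction n with
  | zero => intro h; exact hp (fun i => h (Sum.inr i))
  | succ n ih =>
    intro h
    exact and_def Y (ih (fun i => h (Sum.inr (Sum.inl i)))) (ih (fun i => h (Sum.inr (Sum.inr i))))

/-- the index of the root variable -/
def zi {X Z C : Type} : ∀ {n : ℕ}, (An X Z n → C) → Z → C
  | 0, h => fun i => h (Sum.inl i)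
  | _ + 1, h => fun i => h (Sum.inl i)

lemma zr_comp {X Z C : Type} {n : ℕ} (h : An X Z n → C) (v : C → M) :
    zr (X := X) (Z := Z) (n := n) (v ∘ h) = v ∘ zi h := by
  cases n <;> rfl

lemma rho0_def (Y : Sys M) {X Z C : Type} (γ : (X → M) → (Z → M) → Prop) (hγ : Y.D2 γ) :
    ∀ (n : ℕ) (h : An X Z n → C), Y.D {v : C → M | rho0 γ n (v ∘ h)} := by
  intro n
  induction n with
  | zero => intro h; exact d2_pull Y hγ (fun i => h (Sum.inr i)) (fun i => h (Sum.inl i))
  | succ n ih =>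
    intro h
    refine and_def Y (ih (fun i => h (Sum.inr (Sum.inl i))))
      (and_def Y (ih (fun i => h (Sum.inr (Sum.inr i)))) (and_def Y ?_ ?_))
    · exact allx_def Y (fun v x => γ x (v ∘ (fun i => h (Sum.inl i))))
        (fun f => d2_pull Y hγ f _) n (fun i => h (Sum.inr (Sum.inl i)))
    · exact allx_def Y (fun v x => γ x (v ∘ (fun i => h (Sum.inl i))))
        (fun f => d2_pull Y hγ f _) n (fun i => h (Sum.inr (Sum.inr i)))

section

variable {X V Z : Type} (β : (X → M) → (V → M) → Prop) (α : (Z → M) → (V → M) → Prop)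
  (γ : (X → M) → (Z → M) → Prop)

lemma rho_Q (n : ℕ) (w : An X Z n → M) (v : V ⊕ Z → M) :
    rho β α γ n .Q w v = allz (fun z => α z (v ∘ Sum.inl)) n w := by cases n <;> rfl

lemma rho_P (n : ℕ) (w : An X Z n → M) (v : V ⊕ Z → M) :
    rho β α γ n .P w v = allx (fun x => β x (v ∘ Sum.inl)) n w := by cases n <;> rfl

lemma rho_R (n : ℕ) (w : An X Z n → M) (v : V ⊕ Z → M) :
    rho β α γ n .R w v = allx (fun x => γ x (v ∘ Sum.inr)) n w := by cases n <;> rfl

lemma rho_S (n : ℕ) (w : An X Z n → M) (v : V ⊕ Z → M) :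
    rho β α γ n .S w v = True := by cases n <;> rfl

lemma rho_def (Y : Sys M) {C : Type} (hβ : Y.D2 β) (hα : Y.D2 α) (hγ : Y.D2 γ)
    (k : V ⊕ Z → C) : ∀ (n : ℕ) (a : Lab) (h : An X Z n → C),
      Y.D {v : C → M | rho β α γ n a (v ∘ h) (v ∘ k)} := by
  have hQ : ∀ (n : ℕ) (h : An X Z n → C),
      Y.D {v : C → M | allz (fun z => α z ((v ∘ k) ∘ Sum.inl)) n (v ∘ h)} := fun n h =>
    allz_def Y (fun v z => α z ((v ∘ k) ∘ Sum.inl))
      (fun f => d2_pull Y hα f (fun i => k (Sum.inl i))) n h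
  have hP : ∀ (n : ℕ) (h : An X Z n → C),
      Y.D {v : C → M | allx (fun x => β x ((v ∘ k) ∘ Sum.inl)) n (v ∘ h)} := fun n h =>
    allx_def Y (fun v x => β x ((v ∘ k) ∘ Sum.inl))
      (fun f => d2_pull Y hβ f (fun i => k (Sum.inl i))) n h
  have hR : ∀ (n : ℕ) (h : An X Z n → C),
      Y.D {v : C → M | allx (fun x => γ x ((v ∘ k) ∘ Sum.inr)) n (v ∘ h)} := fun n h =>
    allx_def Y (fun v x => γ x ((v ∘ k) ∘ Sum.inr))
      (fun f => d2_pull Y hγ f (fun i => k (Sum.inr i))) n h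
  have hT : ∀ (n : ℕ) (μ : Nd) (h : An X Z n → C),
      Y.D {v : C → M | rho β α γ n (.T μ) (v ∘ h) (v ∘ k)} := by
    intro n
    induction n with
    | zero =>
      intro μ h
      by_cases hμ : μ = []
      · subst hμ
        have e : {v : C → M | rho β α γ 0 (.T []) (v ∘ h) (v ∘ k)} =
            {v : C → M | γ (v ∘ fun i => h (Sum.inr i)) (v ∘ fun i => k (Sum.inr i))} := by
          ext v
          exact ⟨fun h1 => h1 rfl, fun h1 _ => h1⟩
        rw [e]
        exact d2_pull Y hγ _ _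
      · have e : {v : C → M | rho β α γ 0 (.T μ) (v ∘ h) (v ∘ k)} = Set.univ := by
          ext v
          exact ⟨fun _ => trivial, fun _ h1 => absurd h1 hμ⟩
        rw [e]
        exact Y.univ
    | succ n ih =>
      intro μ h
      rcases μ with _ | ⟨b, μ⟩
      · exact and_def Y (hQ n (fun i => h (Sum.inr (Sum.inl i))))
          (and_def Y (hR n (fun i => h (Sum.inr (Sum.inl i))))
            (and_def Y (hP n (fun i => h (Sum.inr (Sum.inr i))))
              (hR n (fun i => h (Sum.inr (Sum.inr i))))))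
      · cases b
        · exact ih μ (fun i => h (Sum.inr (Sum.inl i)))
        · exact ih μ (fun i => h (Sum.inr (Sum.inr i)))
  intro n a h
  rcases a with _ | _ | _ | _ | μ
  · simp only [rho_Q]; exact hQ n h
  · simp only [rho_P]; exact hP n h
  · simp only [rho_R]; exact hR n h
  · simp only [rho_S]; exact Y.univ
  · exact hT n μ h

end

theorem t_DEF : Pool.Agent.K1H49.PL.S_DEF.{u} := by
  intro M Y X V Z β α γ hβ hα hγ n
  refine ⟨rho0_def Y γ hγ n id, fun a => ?_⟩
  exact rho_def β α γ Y hβ hα hγ Sum.inr n a Sum.inl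

end Pool.Agent.K1H13.PL
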